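import Pool.Agent.Lib.MP_d52947_gt.Full

namespace Pool.Agent.Results.MP_d52947_gt.Full

open Matrix Pool.Agent.Lib.MP_d52947_gt

/-- On each connected component of the representation variety, every mapping-class-invariant
measurable form is a real polynomial in the forms `omega B`. -/
theorem result (n g : ℕ) (_ : 1 ≤ g) (K : Subgroup (orthogonalGroup (Fin n) ℝ))
    (_ : IsClosed (K : Set (orthogonalGroup (Fin n) ℝ)))
    (_ : IsConnected (K : Set (orthogonalGroup (Fin n) ℝ)))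
    (ρ₀ : Surf g →* K) (Y : Set (Surf g →* K))
    (_ : Y = coords ⁻¹' connectedComponentIn (Set.range (coords : (Surf g →* K) → _)) (coords ρ₀))
    (k : ℕ) (α : FormField g n k) (_ : IsForm K α)
    (_ : ∀ φ, IsMod φ → AE fun ρ : Surf g →* K => ρ ∈ Y → ∀ u, (∀ j, IsCocycle ρ (u j)) →
      ev α (precomp φ ρ) (fun j x => u j (φ x)) = ev α ρ u) :
    ∃ (N : ℕ) (m : Fin N → ℕ) (e : ∀ i, Fin (m i) × Bool ≃ Fin k)
      (B : ∀ i, Fin (m i) → Matrix (Fin n) (Fin n) ℝ →ₗ[ℝ] Matrix (Fin n) (Fin n) ℝ →ₗ[ℝ] ℝ)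
      (c : Fin N → ℝ),
      (∀ i j, IsInvInner K (B i j)) ∧
      AE fun ρ : Surf g →* K => ρ ∈ Y → ∀ u, (∀ j, IsCocycle ρ (u j)) →
        ev α ρ u = ∑ i, c i * wedge (e i) (fun j => omega (B i j) ρ) u :=
  full n g ‹_› K ‹_› ‹_› ρ₀ Y ‹_› k α ‹_› ‹_›

end Pool.Agent.Results.MP_d52947_gt.Full
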